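import Mathlib

/-! Quasi-additive functions: independence of shifts, reachable carry vectors, windows. -/

set_option autoImplicit false

namespace Pool.Agent.MP_b1aeef_nt.H50

open Finset

universe u

/-- additivity across a gap of `r` zero digits -/
def QA {C : Type u} [AddCommGroup C] (q r : ℕ) (g : ℕ → C) : Prop :=
  ∀ k a b, b < q ^ k → g (q ^ (k + r) * a + b) = g a + g b

def Per {C : Type u} (g : ℕ → C) : Prop := ∃ p, 0 < p ∧ ∀ n, g (n + p) = g n

section Ind
variable {C : Type u} [AddCommGroup C]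

theorem QA.zero {q r : ℕ} {g : ℕ → C} (h : QA q r g) : g 0 = 0 := by
  have := h 0 0 0 (by simp)
  simpa using this

theorem QA.sum {q r : ℕ} {ι : Type*} (s : Finset ι) (g : ι → ℕ → C)
    (h : ∀ i ∈ s, QA q r (g i)) : QA q r (fun n => ∑ i ∈ s, g i n) := by
  intro k a b hb
  rw [← sum_add_distrib]
  exact sum_congr rfl fun i hi => h i hi k a b hb

theorem QA.sub {q r : ℕ} {g g' : ℕ → C} (h : QA q r g) (h' : QA q r g') :
    QA q r (fun n => g n - g' n) := by
  intro k a b hb
  simp only [h k a b hb, h' k a b hb]; abel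

omit [AddCommGroup C] in
theorem per_mul {g : ℕ → C} {p : ℕ} (h : ∀ n, g (n + p) = g n) (t n : ℕ) :
    g (n + p * t) = g n := by
  induction t with
  | zero => simp
  | succ t ih => rw [Nat.mul_succ, ← add_assoc, h, ih]

theorem Per.sub {g g' : ℕ → C} (h : Per g) (h' : Per g') : Per (fun n => g n - g' n) := by
  obtain ⟨p, hp, h⟩ := h
  obtain ⟨p', hp', h'⟩ := h'
  refine ⟨p * p', Nat.mul_pos hp hp', fun n => ?_⟩
  have e1 := per_mul h p' n
  have e2 := per_mul h' p n
  rw [mul_comm] at e2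
  simp only [e1, e2]

omit [AddCommGroup C] in
theorem Per.congr {g g' : ℕ → C} (h : Per g) (e : ∀ n, g' n = g n) : Per g' := by
  have : g' = g := funext e
  rwa [this]

theorem per_of_delta [Finite C] {H : ℕ → C} (h : Per (fun n => H (n + 1) - H n)) : Per H := by
  obtain ⟨p, hp, h⟩ := h
  have h1 : ∀ n, H (n + p) = H n + (H p - H 0) := by
    intro n
    induction n with
    | zero => simp
    | succ n ih =>
      have := h n
      simp only at this
      rw [show n + 1 + p = n + p + 1 by ring, sub_eq_iff_eq_add.mp this, ih]; abel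
  have h2 : ∀ t n, H (n + p * t) = H n + t • (H p - H 0) := by
    intro t n
    induction t with
    | zero => simp
    | succ t ih => rw [Nat.mul_succ, ← add_assoc, h1, ih, succ_nsmul]; abel
  refine ⟨p * Nat.card C, Nat.mul_pos hp Nat.card_pos, fun n => ?_⟩
  rw [h2, card_nsmul_eq_zero', add_zero]

theorem indep [Finite C] {q r : ℕ} (hq : 2 ≤ q) (D : ℕ) : ∀ g : ℕ → ℕ → C,
    (∀ j, QA q r (g j)) → Per (fun n => ∑ j ∈ range D, g j (n + j)) → ∀ j < D, Per (g j) := by
  induction D with
  | zero => intro g _ _ j hj; omega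
  | succ D ih =>
    intro g hg hG
    have hh : Per (fun n => ∑ j ∈ range (D + 1), g j n) := by
      obtain ⟨p, hp, hG⟩ := hG
      have e : ∀ a, ∑ j ∈ range (D + 1), g j a =
          ∑ j ∈ range (D + 1), g j (q ^ (D + 1 + r) * a + j) - ∑ j ∈ range (D + 1), g j j := by
        intro a
        rw [← sum_sub_distrib]
        refine sum_congr rfl fun j hj => ?_
        rw [hg j (D + 1) a j ((mem_range.mp hj).trans (Nat.lt_pow_self hq))]
        abel
      refine ⟨p, hp, fun a => ?_⟩
      have := per_mul (g := fun n => ∑ j ∈ range (D + 1), g j (n + j)) hG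
        (q ^ (D + 1 + r)) (q ^ (D + 1 + r) * a)
      simp only at this ⊢
      rw [e a, e (a + p), ← this, mul_add, mul_comm p]
    let G : ℕ → ℕ → C := fun j n => ∑ i ∈ Ico (j + 1) (D + 1), g i n
    have hGQ : ∀ j, QA q r (G j) := fun j => QA.sum _ _ fun i _ => hg i
    have hstep : ∀ j < D, ∀ n, g (j + 1) n = G j n - G (j + 1) n := by
      intro j hj n
      simp only [G]
      rw [sum_eq_sum_Ico_succ_bot (show j + 1 < D + 1 by omega)]
      abel
    have hD : ∀ n, G D n = 0 := by intro n; simp [G]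
    have h0 : ∀ n, ∑ j ∈ range (D + 1), g j n = g 0 n + G 0 n := by
      intro n
      simp only [G]
      rw [range_eq_Ico, sum_eq_sum_Ico_succ_bot (show 0 < D + 1 by omega)]
    have hH : Per (fun n => ∑ j ∈ range D, G j (n + j)) := by
      apply per_of_delta
      refine (hG.sub hh).congr fun n => ?_
      have e1 : ∑ j ∈ range D, G j (n + j) = ∑ j ∈ range (D + 1), G j (n + j) := by
        rw [sum_range_succ, hD, add_zero]
      have e2 : ∑ j ∈ range D, g (j + 1) (n + (j + 1)) =
          ∑ j ∈ range D, G j (n + 1 + j) - ∑ j ∈ range D, G (j + 1) (n + (j + 1)) := by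
        rw [← sum_sub_distrib]
        refine sum_congr rfl fun j hj => ?_
        rw [hstep j (mem_range.mp hj), show n + 1 + j = n + (j + 1) by ring]
      rw [e1, h0, sum_range_succ' (fun j => G j (n + j)), sum_range_succ' (fun j => g j (n + j)),
        e2]
      simp only [add_zero]
      abel
    have hall : ∀ j ≤ D, Per (G j) := by
      intro j hj
      rcases Nat.lt_or_ge j D with h | h
      · exact ih G hGQ hH j h
      · obtain rfl : j = D := by omega
        exact ⟨1, one_pos, fun n => by rw [hD, hD]⟩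
    intro j hj
    rcases j with _ | j
    · exact (hh.sub (hall 0 (by omega))).congr fun n => by rw [h0]; abel
    · exact ((hall j (by omega)).sub (hall (j + 1) (by omega))).congr
        fun n => hstep j (by omega) n

end Ind

section Reach
variable {A : Type u} [AddCommGroup A]

/-- no proper quotient of `g` is periodic -/
def ND (g : ℕ → A) : Prop :=
  ∀ B : AddSubgroup A, B ≠ ⊤ → ¬ ∃ p, 0 < p ∧ ∀ n, g (n + p) - g n ∈ B

/-- the carry vector -/
def car {k : ℕ} (g : ℕ → A) (β : Fin k → ℕ) (t : ℕ) : Fin k → A :=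
  fun i => g (t + β i) - g t - g (β i)

theorem exists_pow_gt {q : ℕ} (hq : 2 ≤ q) {k : ℕ} (β : Fin k → ℕ) (M : ℕ) :
    ∃ l, M < q ^ l ∧ ∀ i, M + β i < q ^ l := by
  refine ⟨M + ∑ i, β i, ?_, fun i => ?_⟩
  · exact lt_of_le_of_lt (Nat.le_add_right _ _) (Nat.lt_pow_self hq)
  · refine lt_of_le_of_lt ?_ (Nat.lt_pow_self hq)
    have := single_le_sum (f := β) (fun i _ => Nat.zero_le _) (mem_univ i)
    omega

theorem car_cat {q r k : ℕ} {g : ℕ → A} (hg : QA q r g) (β β' : Fin k → ℕ) (t t' l : ℕ)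
    (h : ∀ i, t + β i < q ^ l) :
    car g (fun i => q ^ (l + r) * β' i + β i) (q ^ (l + r) * t' + t) =
      car g β' t' + car g β t := by
  funext i
  have h1 := h i
  simp only [car, Pi.add_apply]
  rw [show q ^ (l + r) * t' + t + (q ^ (l + r) * β' i + β i) =
    q ^ (l + r) * (t' + β' i) + (t + β i) by ring, hg l _ _ h1, hg l _ _ (show t < _ by omega),
    hg l _ _ (show β i < _ by omega)]
  abel

theorem car_zero {q r k : ℕ} {g : ℕ → A} (hg : QA q r g) (β : Fin k → ℕ) : car g β 0 = 0 := by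
  funext i; simp [car, hg.zero]

theorem car_far {q r k : ℕ} {g : ℕ → A} (hg : QA q r g) (β : Fin k → ℕ) (t t' l : ℕ)
    (h : ∀ i, t + β i < q ^ l) : car g β (q ^ (l + r) * t' + t) = car g β t := by
  have := car_cat hg β (fun _ => 0) t t' l h
  simp only [mul_zero, zero_add] at this
  rw [this]
  funext i
  simp [car, hg.zero]

theorem span_top [Finite A] {q r k : ℕ} (hq : 2 ≤ q) {g : ℕ → A} (hg : QA q r g) (hN : ND g)
    (Dv : Fin k → ℕ) (hinj : Function.Injective Dv) (hpos : ∀ i, 0 < Dv i)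
    (H : AddSubgroup (Fin k → A)) (hH : ∀ t, car g Dv t ∈ H) : H = ⊤ := by
  classical
  let ψ := QuotientAddGroup.mk' H
  let φ : Fin k → A →+ (Fin k → A) ⧸ H := fun i => ψ.comp (AddMonoidHom.single (fun _ => A) i)
  have hψ : ∀ v, ψ v = ∑ i, φ i (v i) := by
    intro v
    conv_lhs => rw [← univ_sum_single v, map_sum]
    rfl
  let G : ℕ → ℕ → (Fin k → A) ⧸ H := fun j n =>
    ∑ i, ((if Dv i = j then φ i (g n) else 0) - (if 0 = j then φ i (g n) else 0))
  have hφ : ∀ i, QA q r (fun n => φ i (g n)) := by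
    intro i l a b hb
    simp only [hg l a b hb, map_add]
  have hite : ∀ (c : Prop) [Decidable c] (i : Fin k),
      QA q r (fun n => if c then φ i (g n) else 0) := by
    intro c _ i
    by_cases hc : c
    · simpa [hc] using hφ i
    · intro l a b _; simp [hc]
  have hGQ : ∀ j, QA q r (G j) := fun j =>
    QA.sum _ _ fun i _ => (hite _ i).sub (hite _ i)
  obtain ⟨D, hD0, hD⟩ : ∃ D, 0 < D ∧ ∀ i, Dv i < D := by
    obtain ⟨l, h1, h2⟩ := exists_pow_gt hq Dv 0
    exact ⟨q ^ l, h1, fun i => by simpa using h2 i⟩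
  have hsum : ∀ n, ∑ j ∈ range D, G j (n + j) = ∑ i, φ i (g (Dv i)) := by
    intro n
    have h0 : ψ (car g Dv n) = 0 := (QuotientAddGroup.eq_zero_iff _).mpr (hH n)
    rw [hψ] at h0
    simp only [car, map_sub, sum_sub_distrib] at h0
    simp only [G]
    rw [sum_comm, ← sub_eq_zero.mp h0, ← sum_sub_distrib]
    refine sum_congr rfl fun i _ => ?_
    rw [sum_sub_distrib, sum_ite_eq, sum_ite_eq, if_pos (mem_range.mpr (hD i)),
      if_pos (mem_range.mpr hD0), add_zero]
  have hper := indep hq D G hGQ ⟨1, one_pos, fun n => by simp only [hsum]⟩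
  have hz : ∀ i, (φ i).ker = ⊤ := by
    intro i
    by_contra hne
    apply hN _ hne
    obtain ⟨p, hp, h⟩ := hper (Dv i) (hD i)
    have e : ∀ n, G (Dv i) n = φ i (g n) := by
      intro n
      simp only [G, (hpos i).ne, if_false, sub_zero, hinj.eq_iff, sum_ite_eq', mem_univ, if_true]
    refine ⟨p, hp, fun n => ?_⟩
    rw [AddMonoidHom.mem_ker, map_sub, ← e, ← e, h, sub_self]
  rw [eq_top_iff]
  intro v _
  rw [← QuotientAddGroup.eq_zero_iff]
  change ψ v = 0
  rw [hψ]
  refine sum_eq_zero fun i _ => ?_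
  rw [← AddMonoidHom.mem_ker, hz]
  trivial

theorem reach [Finite A] {q r k : ℕ} (hq : 2 ≤ q) {g : ℕ → A} (hg : QA q r g) (hN : ND g)
    (Dv : Fin k → ℕ) (hinj : Function.Injective Dv) (hpos : ∀ i, 0 < Dv i) :
    ∃ y, Function.Surjective (car g (fun i => Dv i * y)) := by
  let R : ℕ → Set (Fin k → A) := fun y => Set.range (car g (fun i => Dv i * y))
  obtain ⟨y, hy⟩ : ∃ y, ∀ y', (R y').ncard ≤ (R y).ncard := by
    have hb : ∀ y, (R y).ncard ≤ Nat.card (Fin k → A) := fun y => Set.ncard_le_card _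
    refine ⟨Function.argmin (fun y => Nat.card (Fin k → A) - (R y).ncard), fun y' => ?_⟩
    have h1 := Function.argmin_le (fun y => Nat.card (Fin k → A) - (R y).ncard) y'
    have h2 := hb y'
    have h3 := hb (Function.argmin (fun y => Nat.card (Fin k → A) - (R y).ncard))
    omega
  obtain ⟨M, hM⟩ : ∃ M, ∀ v ∈ R y, ∃ t ≤ M, car g (fun i => Dv i * y) t = v := by
    have : ∀ v : R y, ∃ t, car g (fun i => Dv i * y) t = v := fun v => v.2
    choose t ht using this
    obtain ⟨M, hM⟩ := (Set.finite_range t).bddAbove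
    exact ⟨M, fun v hv => ⟨t ⟨v, hv⟩, hM ⟨_, rfl⟩, ht ⟨v, hv⟩⟩⟩
  obtain ⟨l, -, hl⟩ := exists_pow_gt hq (fun i => Dv i * y) M
  have hadd : ∀ v ∈ R y, ∀ t', car g Dv t' + v ∈ R (q ^ (l + r) + y) := by
    intro v hv t'
    obtain ⟨t, ht, rfl⟩ := hM v hv
    refine ⟨q ^ (l + r) * t' + t, ?_⟩
    rw [← car_cat hg _ Dv t t' l (fun i => lt_of_le_of_lt (by omega) (hl i))]
    congr 1
    funext i; ring
  have heq : R y = R (q ^ (l + r) + y) := by
    refine Set.eq_of_subset_of_ncard_le (fun v hv => ?_) (hy _) (Set.toFinite _)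
    have := hadd v hv 0
    rwa [car_zero hg, zero_add] at this
  rw [← heq] at hadd
  let S : AddSubmonoid (Fin k → A) :=
    { carrier := {w | ∀ v ∈ R y, w + v ∈ R y}
      zero_mem' := fun v hv => by simpa using hv
      add_mem' := fun {a b} ha hb v hv => by
        rw [add_assoc]; exact ha _ (hb v hv) }
  let H : AddSubgroup (Fin k → A) :=
    { S with
      neg_mem' := fun {a} ha => by
        have h1 : (Nat.card (Fin k → A) - 1) • a ∈ S := S.nsmul_mem ha _
        have h2 : (Nat.card (Fin k → A) - 1) • a = -a := by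
          rw [eq_neg_iff_add_eq_zero, ← succ_nsmul, Nat.sub_add_cancel Nat.card_pos,
            card_nsmul_eq_zero']
        rw [h2] at h1
        exact h1 }
  have hH := span_top hq hg hN Dv hinj hpos H (fun t v hv => hadd v hv t)
  refine ⟨y, fun w => ?_⟩
  have hw : w ∈ H := by rw [hH]; trivial
  have := hw 0 ⟨0, car_zero hg _⟩
  rwa [add_zero] at this

theorem window [Finite A] {q r k : ℕ} (hq : 2 ≤ q) {g : ℕ → A} (hg : QA q r g) (β : Fin k → ℕ)
    (hs : Function.Surjective (car g β)) :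
    ∃ T E, 1 ≤ T ∧ ∀ v, ∃ e ≤ E, T % q ^ (e + r) < q ^ e ∧ car g β (T / q ^ (e + r)) = v := by
  classical
  have := Fintype.ofFinite A
  have key : ∀ V : Finset (Fin k → A), ∃ T E, 1 ≤ T ∧
      ∀ v ∈ V, ∃ e ≤ E, T % q ^ (e + r) < q ^ e ∧ car g β (T / q ^ (e + r)) = v := by
    intro V
    induction V using Finset.induction_on with
    | empty => exact ⟨1, 0, le_rfl, by simp⟩
    | insert w V _ ih =>
      obtain ⟨T, E, hT, ih⟩ := ih
      obtain ⟨t, rfl⟩ := hs w
      obtain ⟨l, hl0, hl⟩ := exists_pow_gt hq β t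
      have hqr : 0 < q ^ r := by positivity
      have hql : 0 < q ^ (l + r) := by positivity
      have hμ : 0 < q ^ (l + r + r) := by positivity
      refine ⟨q ^ r * (q ^ (l + r) * T + t), E + (l + r + r), ?_, fun v hv => ?_⟩
      · exact Nat.mul_pos hqr (by have := Nat.mul_pos hql hT; omega)
      rcases mem_insert.mp hv with rfl | hv
      · refine ⟨0, by omega, by simp, ?_⟩
        rw [zero_add, Nat.mul_div_cancel_left _ hqr, car_far hg β t T l hl]
      · obtain ⟨e, he, h1, h2⟩ := ih v hv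
        have hρ : q ^ r * t < q ^ (l + r + r) := by
          calc q ^ r * t < q ^ r * q ^ l := Nat.mul_lt_mul_of_pos_left hl0 hqr
            _ = q ^ (l + r) := by ring
            _ ≤ q ^ (l + r + r) := Nat.pow_le_pow_right (by omega) (by omega)
        have e1 : q ^ r * (q ^ (l + r) * T + t) = q ^ r * t + q ^ (l + r + r) * T := by ring
        have e2 : q ^ (e + (l + r + r) + r) = q ^ (l + r + r) * q ^ (e + r) := by ring
        have e3 : (q ^ r * t + q ^ (l + r + r) * T) / q ^ (l + r + r) = T := by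
          rw [Nat.add_mul_div_left _ _ hμ, Nat.div_eq_of_lt hρ, zero_add]
        refine ⟨e + (l + r + r), by omega, ?_, ?_⟩
        · rw [e1, e2, Nat.mod_mul, e3, Nat.add_mul_mod_self_left, Nat.mod_eq_of_lt hρ]
          calc q ^ r * t + q ^ (l + r + r) * (T % q ^ (e + r))
              < q ^ (l + r + r) * (T % q ^ (e + r) + 1) := by rw [mul_add]; omega
            _ ≤ q ^ (l + r + r) * q ^ e := Nat.mul_le_mul_left _ h1
            _ = q ^ (e + (l + r + r)) := by ring
        · rw [e1, e2, ← Nat.div_div_eq_div_mul, e3, h2]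
  obtain ⟨T, E, hT, h⟩ := key univ
  exact ⟨T, E, hT, fun v => h v (mem_univ v)⟩

theorem QA.blocks {q r : ℕ} {g : ℕ → A} (hg : QA q r g) (L n : ℕ) : ∀ c : ℕ → ℕ,
    (∀ j < n, c j < q ^ L) →
    g (∑ j ∈ range n, c j * (q ^ (L + r)) ^ j) = ∑ j ∈ range n, g (c j) := by
  induction n with
  | zero => intro c _; simp [hg.zero]
  | succ n ih =>
    intro c hc
    rw [sum_range_succ', sum_range_succ', ← ih (fun j => c (j + 1)) (fun j hj => hc _ (by omega)),
      ← hg L _ _ (hc 0 (by omega)), mul_sum]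
    congr 2
    · exact sum_congr rfl fun j _ => by ring
    · simp

end Reach

end Pool.Agent.MP_b1aeef_nt.H50
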