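import Mathlib

/-! Polynomials with natural coefficients: growth, Taylor blocks, reduction from rational ones. -/

set_option autoImplicit false

namespace Pool.Agent.MP_b1aeef_nt.H50

open Finset Polynomial Filter

theorem ev_mono (R : ℕ[X]) {x y : ℕ} (h : x ≤ y) : R.eval x ≤ R.eval y := by
  rw [eval_eq_sum_range, eval_eq_sum_range]
  exact sum_le_sum fun j _ => Nat.mul_le_mul_left _ (Nat.pow_le_pow_left h _)

theorem lead_pos (R : ℕ[X]) (h : 1 ≤ R.natDegree) : 1 ≤ R.coeff R.natDegree := by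
  have : R ≠ 0 := by rintro rfl; simp at h
  exact Nat.pos_of_ne_zero (leadingCoeff_ne_zero.mpr this)

theorem ev_strict (R : ℕ[X]) (h : 1 ≤ R.natDegree) {x y : ℕ} (hxy : x < y) :
    R.eval x < R.eval y := by
  rw [eval_eq_sum_range, eval_eq_sum_range]
  refine sum_lt_sum (fun j _ => Nat.mul_le_mul_left _ (Nat.pow_le_pow_left hxy.le _))
    ⟨R.natDegree, by simp, ?_⟩
  exact Nat.mul_lt_mul_of_pos_left (Nat.pow_lt_pow_left hxy (by omega)) (lead_pos R h)

theorem ev_lower (R : ℕ[X]) (h : 1 ≤ R.natDegree) (x : ℕ) : x ^ R.natDegree ≤ R.eval x := by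
  rw [eval_eq_sum_range, sum_range_succ]
  have := Nat.mul_le_mul_right (x ^ R.natDegree) (lead_pos R h)
  omega

theorem ev_upper (R : ℕ[X]) {x : ℕ} (hx : 1 ≤ x) : R.eval x ≤ R.eval 1 * x ^ R.natDegree := by
  rw [eval_eq_sum_range, eval_eq_sum_range, sum_mul]
  refine sum_le_sum fun j hj => ?_
  rw [one_pow, mul_one]
  exact Nat.mul_le_mul_left _ (Nat.pow_le_pow_right hx (by have := mem_range.mp hj; omega))

theorem ev_modEq (R : ℕ[X]) {m x y : ℕ} (h : x ≡ y [MOD m]) : R.eval x ≡ R.eval y [MOD m] := by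
  induction R using Polynomial.induction_on' with
  | add p q hp hq => rw [eval_add, eval_add]; exact hp.add hq
  | monomial n a => rw [eval_monomial, eval_monomial]; exact (h.pow n).mul_left a

/-- Taylor coefficient -/
noncomputable def tc (R : ℕ[X]) (j x : ℕ) : ℕ := (hasseDeriv j R).eval x

theorem ev_taylor (R : ℕ[X]) (x z : ℕ) :
    R.eval (x + z) = R.eval x + ∑ j ∈ range R.natDegree, tc R (j + 1) x * z ^ (j + 1) := by
  rw [add_comm x, ← taylor_eval, eval_eq_sum_range, natDegree_taylor, sum_range_succ', add_comm]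
  simp [tc, taylor_coeff]

theorem rest_le (R : ℕ[X]) {x z M : ℕ} (hx : 1 ≤ x) (_hM : 1 ≤ M) (h : M * z ≤ x) :
    M * ∑ j ∈ range R.natDegree, tc R (j + 1) x * z ^ (j + 1) ≤
      R.eval 1 * 2 ^ R.natDegree * x ^ R.natDegree := by
  have h1 : M * ∑ j ∈ range R.natDegree, tc R (j + 1) x * z ^ (j + 1) ≤
      ∑ j ∈ range R.natDegree, tc R (j + 1) x * (M * z) ^ (j + 1) := by
    rw [mul_sum]
    refine sum_le_sum fun j _ => ?_
    rw [mul_left_comm, mul_pow]
    exact Nat.mul_le_mul_left _ (Nat.mul_le_mul_right _ (Nat.le_self_pow (by omega) M))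
  have h2 := ev_taylor R x (M * z)
  have h3 := ev_mono R (show x + M * z ≤ 2 * x by omega)
  have h4 := ev_upper R (show 1 ≤ 2 * x by omega)
  rw [mul_pow, ← mul_assoc] at h4
  omega

theorem deriv_deg (R : ℕ[X]) (h : 2 ≤ R.natDegree) : 1 ≤ (hasseDeriv 1 R).natDegree := by
  refine le_trans (show 1 ≤ R.natDegree - 1 by omega) (le_natDegree_of_ne_zero ?_)
  rw [hasseDeriv_coeff, Nat.sub_add_cancel (by omega), Nat.choose_one_right]
  have := lead_pos R (by omega)
  positivity

theorem ev_pos (G : ℚ[X]) (n : ℕ) (h1 : G.natDegree ≤ n) (h2 : 0 < G.coeff n) :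
    ∀ᶠ x : ℕ in atTop, 0 < G.eval (x : ℚ) := by
  have hdeg : G.natDegree = n := le_antisymm h1 (le_natDegree_of_ne_zero h2.ne')
  have hlc : G.leadingCoeff = G.coeff n := by rw [leadingCoeff, hdeg]
  rcases Nat.eq_zero_or_pos n with h0 | h0
  · subst h0
    refine Eventually.of_forall fun x => ?_
    rw [eq_C_of_natDegree_eq_zero hdeg, eval_C]
    exact h2
  · have := (tendsto_atTop_of_leadingCoeff_nonneg G
      (natDegree_pos_iff_degree_pos.1 (by omega)) (by rw [hlc]; exact h2.le)).comp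
      (tendsto_natCast_atTop_atTop (R := ℚ))
    exact this.eventually_gt_atTop 0

theorem exists_den (P : ℚ[X]) : ∃ D : ℕ, 0 < D ∧ ∀ m, ∃ z : ℤ, (D : ℚ) * P.coeff m = z := by
  refine ⟨∏ m ∈ P.support, (P.coeff m).den, Finset.prod_pos fun m _ => (P.coeff m).den_pos,
    fun m => ?_⟩
  by_cases hm : m ∈ P.support
  · rw [← Finset.mul_prod_erase _ _ hm]
    refine ⟨(∏ x ∈ P.support.erase m, (P.coeff x).den : ℕ) * (P.coeff m).num, ?_⟩
    rw [Nat.cast_mul, Int.cast_mul, ← Rat.mul_den_eq_num, Int.cast_natCast]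
    ring
  · exact ⟨0, by rw [notMem_support_iff.1 hm]; simp⟩

theorem to_nat (P : ℚ[X]) (hdeg : 1 ≤ P.natDegree) (a : ℕ → ℕ)
    (ha : ∀ n : ℕ, (a n : ℚ) = P.eval (n : ℚ)) :
    ∃ (x D : ℕ) (Q : ℕ[X]), 0 < D ∧ Q.natDegree = P.natDegree ∧
      ∀ n, D * a (n + x) = Q.eval n := by
  have hP : P ≠ 0 := by rintro rfl; simp at hdeg
  have hl : 0 < P.coeff P.natDegree := by
    rcases lt_or_gt_of_ne (leadingCoeff_ne_zero.mpr hP) with h | h
    · exfalso
      have h1 := ev_pos (-P) P.natDegree (by simp) (by rw [coeff_neg]; exact neg_pos.mpr h)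
      obtain ⟨n, hn⟩ := h1.exists
      rw [eval_neg, ← ha] at hn
      have : (0 : ℚ) ≤ a n := by positivity
      linarith
    · exact h
  have hx : ∀ᶠ x : ℕ in atTop, ∀ m ∈ range (P.natDegree + 1),
      0 < (hasseDeriv m P).eval (x : ℚ) := by
    rw [eventually_all_finset]
    intro m hm
    have hm' : m ≤ P.natDegree := by have := mem_range.mp hm; omega
    refine ev_pos _ (P.natDegree - m) (natDegree_hasseDeriv_le P m) ?_
    rw [hasseDeriv_coeff, Nat.sub_add_cancel hm']
    have : (0 : ℚ) < (P.natDegree.choose m : ℕ) := by exact_mod_cast Nat.choose_pos hm'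
    positivity
  obtain ⟨x, hx⟩ := hx.exists
  obtain ⟨D, hD, hz⟩ := exists_den P
  have h1 : ∀ m, ∃ c : ℕ, (c : ℚ) = (C (D : ℚ) * taylor (x : ℚ) P).coeff m := by
    intro m
    rw [coeff_C_mul, taylor_coeff]
    by_cases hm : m ≤ P.natDegree
    · have hint : ∃ z : ℤ, (D : ℚ) * (hasseDeriv m P).eval (x : ℚ) = z := by
        choose z hz using hz
        rw [eval_eq_sum_range, Finset.mul_sum]
        refine ⟨∑ l ∈ Finset.range ((hasseDeriv m P).natDegree + 1),
          ((l + m).choose m : ℕ) * z (l + m) * (x : ℤ) ^ l, ?_⟩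
        push_cast
        refine Finset.sum_congr rfl fun l _ => ?_
        rw [hasseDeriv_coeff, ← hz]
        ring
      obtain ⟨z, hz⟩ := hint
      have hz0 : 0 ≤ z := by
        have : (0 : ℚ) ≤ z := by
          rw [← hz]; exact mul_nonneg (by positivity) (hx m (mem_range.mpr (by omega))).le
        exact_mod_cast this
      obtain ⟨n, rfl⟩ := Int.eq_ofNat_of_zero_le hz0
      exact ⟨n, by rw [hz]; simp⟩
    · exact ⟨0, by rw [hasseDeriv_eq_zero_of_lt_natDegree P m (by omega)]; simp⟩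
  have h2 : C (D : ℚ) * taylor (x : ℚ) P ∈ lifts (Nat.castRingHom ℚ) := by
    rw [lifts_iff_coeff_lifts]
    intro m
    exact h1 m
  obtain ⟨Q, hQ⟩ := (mem_lifts _).mp h2
  refine ⟨x, D, Q, hD, ?_, fun n => ?_⟩
  · rw [← natDegree_map_eq_of_injective (f := Nat.castRingHom ℚ) Nat.cast_injective, hQ,
      natDegree_C_mul (by positivity), natDegree_taylor]
  · apply Nat.cast_injective (R := ℚ)
    have := eval_natCast_map (Nat.castRingHom ℚ) Q n
    rw [hQ, eval_mul, eval_C, taylor_eval] at this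
    push_cast
    rw [ha]
    push_cast
    simpa using this

end Pool.Agent.MP_b1aeef_nt.H50
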