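import Pool.Agent.MP_b1aeef_nt.H50.Alg
import Pool.Agent.MP_b1aeef_nt.H50.Poly

/-! Counting the occurrences of a word. -/

set_option autoImplicit false

namespace Pool.Agent.MP_b1aeef_nt.H50

open Finset Polynomial Filter

universe u

variable {A : Type u} [AddCommGroup A]

theorem local_eval {q r : ℕ} (hq : 2 ≤ q) {f g : ℕ → A}
    (hf : ∀ k a b, b < q ^ k → f (q ^ (k + r) * a + b) = g a + f b) (hg : QA q r g)
    (Q : ℕ[X]) (D : ℕ) (a : ℕ → ℕ) (hD : 0 < D) (ha : ∀ n, D * a n = Q.eval n)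
    (hd : 1 ≤ Q.natDegree) (T s e W β γ x y : ℕ) (hT : T % q ^ (e + r) < q ^ e)
    (h0 : T * q ^ s ≤ a x) (h1 : a x < (T + 1) * q ^ s)
    (hc : ∀ j < Q.natDegree, 2 * (tc Q (j + 1) x * D ^ j * y ^ (j + 1)) ≤ q ^ s)
    (hT2 : 2 * T < q ^ s) (hβ : tc Q 1 x * y = q ^ (W + r) * γ + β) (hW : T + β < q ^ W) :
    f (a (x + q ^ (s + e + r) * (D * y))) =
      (f (a x) + ∑ j ∈ range Q.natDegree, g (tc Q (j + 1) x * D ^ j * y ^ (j + 1))) +
        (g (T / q ^ (e + r) + β) - g (T / q ^ (e + r)) - g β) := by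
  set B := q ^ (s + e + r) with hB
  set c : ℕ → ℕ := fun j => tc Q (j + 1) x * D ^ j * y ^ (j + 1) with hcdef
  have hs : 0 < q ^ s := by positivity
  have hse : q ^ s ≤ q ^ (s + e) := Nat.pow_le_pow_right (by omega) (by omega)
  have e1 : a (x + B * (D * y)) = a x + B * ∑ j ∈ range Q.natDegree, c j * B ^ j := by
    apply Nat.eq_of_mul_eq_mul_left hD
    rw [ha, ev_taylor, ← ha, mul_add, mul_sum, mul_sum]
    congr 1
    exact sum_congr rfl fun j _ => by simp only [hcdef]; ring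
  obtain ⟨ρ, hρ, e2⟩ : ∃ ρ, ρ < q ^ s ∧ a x = q ^ s * T + ρ :=
    ⟨a x - T * q ^ s, by rw [add_mul] at h1; omega, by rw [mul_comm]; omega⟩
  set Te := T / q ^ (e + r) with hTe
  have hTeT : Te ≤ T := Nat.div_le_self _ _
  have hlo : q ^ s * (T % q ^ (e + r)) + ρ < q ^ (s + e) := by
    calc q ^ s * (T % q ^ (e + r)) + ρ < q ^ s * (T % q ^ (e + r) + 1) := by rw [mul_add]; omega
      _ ≤ q ^ s * q ^ e := Nat.mul_le_mul_left _ hT
      _ = q ^ (s + e) := by ring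
  have e3 : a x = B * Te + (q ^ s * (T % q ^ (e + r)) + ρ) := by
    rw [e2]
    conv_lhs => rw [← Nat.div_add_mod T (q ^ (e + r))]
    rw [hB]; ring
  obtain ⟨d, hd'⟩ : ∃ d, Q.natDegree = d + 1 := ⟨Q.natDegree - 1, by omega⟩
  rw [hd'] at e1 hc ⊢
  have hc0 : c 0 = q ^ (W + r) * γ + β := by simp only [hcdef]; rw [← hβ]; simp
  have e4 : a (x + B * (D * y)) =
      B * (B * (∑ j ∈ range d, c (j + 1) * B ^ j) + (Te + c 0)) +
        (q ^ s * (T % q ^ (e + r)) + ρ) := by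
    rw [e1, e3, sum_range_succ', mul_sum]
    have : ∑ j ∈ range d, c (j + 1) * B ^ (j + 1) = ∑ j ∈ range d, B * (c (j + 1) * B ^ j) :=
      sum_congr rfl fun j _ => by ring
    rw [this]; ring
  have hcl : ∀ j < d + 1, 2 * c j ≤ q ^ s := hc
  have e5 : g (Te + c 0) = g γ + g (Te + β) := by
    rw [← hg W γ (Te + β) (by omega), hc0]; congr 1; ring
  have e6 : g (c 0) = g γ + g β := by rw [hc0, hg W γ β (by omega)]
  have e7 : f (a x) = g Te + f (q ^ s * (T % q ^ (e + r)) + ρ) := by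
    rw [e3]; exact hf _ _ _ hlo
  rw [e4, hf _ _ _ hlo, hg (s + e) _ _ (show Te + c 0 < _ by have := hcl 0 (by omega); omega),
    hg.blocks (s + e) d (fun j => c (j + 1))
      (fun j hj => by have := hcl (j + 1) (by omega); omega), e5, e7]
  change _ = _ + ∑ j ∈ range (d + 1), g (c j) + _
  rw [sum_range_succ', e6]
  abel

theorem scale {q : ℕ} (hq : 2 ≤ q) (Q : ℕ[X]) (hd : 1 ≤ Q.natDegree) (T Z : ℕ) (hT : 1 ≤ T)
    (hZ : T ≤ Z) (hZ' : q * Q.eval 1 ≤ Z) :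
    ∃ s ξ, Q.eval ξ < T * q ^ s ∧ T * q ^ s ≤ Q.eval (ξ + 1) ∧ ξ < Z ∧
      Z < q * Q.eval 1 * (ξ + 2) ∧ q ^ s ≤ Q.eval 1 * Z ^ Q.natDegree := by
  classical
  have hl := ev_lower Q hd Z
  have hZd : Z ≤ Z ^ Q.natDegree := Nat.le_self_pow (by omega) Z
  have hne : Q.eval Z / T ≠ 0 := (Nat.div_pos (by omega) hT).ne'
  set s := Nat.log q (Q.eval Z / T) with hs
  have h1 : T * q ^ s ≤ Q.eval Z := by
    rw [mul_comm]
    exact (Nat.le_div_iff_mul_le hT).mp (Nat.pow_log_le_self q hne)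
  have h2 : Q.eval Z < q ^ (s + 1) * T :=
    (Nat.div_lt_iff_lt_mul hT).mp (Nat.lt_pow_succ_log_self (by omega) _)
  have hex : ∃ X, T * q ^ s ≤ Q.eval X := ⟨Z, h1⟩
  have hX := Nat.find_spec hex
  have hXZ : Nat.find hex ≤ Z := Nat.find_min' hex h1
  have hQ1 : 1 ≤ Q.eval 1 := by simpa using ev_lower Q hd 1
  have h3 : Z < q * Q.eval 1 * (Nat.find hex + 1) := by
    refine lt_of_pow_lt_pow_left₀ Q.natDegree (Nat.zero_le _) ?_
    calc Z ^ Q.natDegree ≤ Q.eval Z := hl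
      _ < q ^ (s + 1) * T := h2
      _ = q * (T * q ^ s) := by ring
      _ ≤ q * Q.eval (Nat.find hex + 1) :=
        Nat.mul_le_mul_left _ (hX.trans (ev_mono Q (by omega)))
      _ ≤ q * (Q.eval 1 * (Nat.find hex + 1) ^ Q.natDegree) :=
        Nat.mul_le_mul_left _ (ev_upper Q (by omega))
      _ = (q * Q.eval 1) * (Nat.find hex + 1) ^ Q.natDegree := by ring
      _ ≤ (q * Q.eval 1) ^ Q.natDegree * (Nat.find hex + 1) ^ Q.natDegree :=
        Nat.mul_le_mul_right _ (Nat.le_self_pow (by omega) _)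
      _ = _ := by rw [← mul_pow]
  obtain ⟨ξ, hξ⟩ : ∃ ξ, Nat.find hex = ξ + 1 := by
    refine ⟨Nat.find hex - 1, ?_⟩
    rcases Nat.eq_zero_or_pos (Nat.find hex) with h | h
    · rw [h] at h3; omega
    · omega
  refine ⟨s, ξ, not_le.mp (Nat.find_min hex (by omega)), hξ ▸ hX, by omega, by rwa [hξ] at h3, ?_⟩
  calc q ^ s ≤ T * q ^ s := Nat.le_mul_of_pos_left _ hT
    _ ≤ Q.eval Z := h1
    _ ≤ _ := ev_upper Q (by omega)

theorem blk (Q : ℕ[X]) (D : ℕ) (a : ℕ → ℕ) (hD : 0 < D) (ha : ∀ n, D * a n = Q.eval n)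
    (hd : 1 ≤ Q.natDegree) (T S ξ h y M : ℕ) (hT : 1 ≤ T)
    (hM : M = 2 * (2 ^ Q.natDegree * (Q.eval 1 * 2 ^ Q.natDegree) * (D * T)))
    (h1 : Q.eval ξ < D * T * S) (h2 : D * T * S ≤ Q.eval (ξ + 1)) (hh : 1 ≤ h)
    (hMh : M * h ≤ ξ) (hy : M * (D * y) ≤ ξ) :
    T * S ≤ a (ξ + h) ∧ a (ξ + h) < (T + 1) * S ∧
      ∀ j < Q.natDegree, 2 * (tc Q (j + 1) (ξ + h) * D ^ j * y ^ (j + 1)) ≤ S := by
  have hQ1 : 1 ≤ Q.eval 1 := by simpa using ev_lower Q hd 1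
  set C0 := Q.eval 1 * 2 ^ Q.natDegree with hC0
  have hC : 0 < C0 := by positivity
  have hK : 0 < 2 ^ Q.natDegree * C0 * (D * T) := by positivity
  have hM1 : 1 ≤ M := by omega
  have hhξ : h ≤ ξ := le_trans (Nat.le_mul_of_pos_left _ hM1) hMh
  have hl := ev_lower Q hd ξ
  refine ⟨?_, ?_, fun j hj => ?_⟩
  · apply Nat.le_of_mul_le_mul_left _ hD
    rw [ha, ← mul_assoc]
    exact h2.trans (ev_mono Q (by omega))
  · apply Nat.lt_of_mul_lt_mul_left (a := D)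
    rw [ha, ev_taylor]
    have h3 := rest_le Q (show 1 ≤ ξ by omega) hM1 hMh
    have h4 : C0 * (D * T) ≤ M := by
      have : C0 * (D * T) ≤ 2 ^ Q.natDegree * (C0 * (D * T)) :=
        Nat.le_mul_of_pos_left _ (by positivity)
      rw [← mul_assoc (2 ^ Q.natDegree)] at this
      omega
    have h5 : ∑ j ∈ range Q.natDegree, tc Q (j + 1) ξ * h ^ (j + 1) ≤ S := by
      apply Nat.le_of_mul_le_mul_left _ hM1
      calc _ ≤ C0 * ξ ^ Q.natDegree := h3
        _ ≤ C0 * (D * T * S) := Nat.mul_le_mul_left _ (by omega)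
        _ = C0 * (D * T) * S := by ring
        _ ≤ M * S := Nat.mul_le_mul_right _ h4
    have h6 : S ≤ D * S := Nat.le_mul_of_pos_left _ hD
    calc _ < D * T * S + D * S := by omega
      _ = _ := by ring
  · have h3 := rest_le Q (show 1 ≤ ξ + h by omega) hM1 (show M * (D * y) ≤ ξ + h by omega)
    have h4 := single_le_sum (f := fun j => tc Q (j + 1) (ξ + h) * (D * y) ^ (j + 1))
      (fun j _ => Nat.zero_le _) (mem_range.mpr hj)
    apply Nat.le_of_mul_le_mul_left _ hK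
    calc 2 ^ Q.natDegree * C0 * (D * T) * (2 * (tc Q (j + 1) (ξ + h) * D ^ j * y ^ (j + 1)))
        = M * (1 * (tc Q (j + 1) (ξ + h) * D ^ j * y ^ (j + 1))) := by rw [hM]; ring
      _ ≤ M * (D * (tc Q (j + 1) (ξ + h) * D ^ j * y ^ (j + 1))) :=
        Nat.mul_le_mul_left _ (Nat.mul_le_mul_right _ hD)
      _ = M * (tc Q (j + 1) (ξ + h) * (D * y) ^ (j + 1)) := by ring
      _ ≤ C0 * (ξ + h) ^ Q.natDegree := (Nat.mul_le_mul_left _ h4).trans h3
      _ ≤ C0 * (2 * ξ) ^ Q.natDegree :=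
        Nat.mul_le_mul_left _ (Nat.pow_le_pow_left (by omega) _)
      _ = 2 ^ Q.natDegree * C0 * ξ ^ Q.natDegree := by rw [mul_pow]; ring
      _ ≤ 2 ^ Q.natDegree * C0 * (D * T * S) := Nat.mul_le_mul_left _ (by omega)
      _ = _ := by ring

theorem exists_root (K m Z0 N : ℕ) (hK : 1 ≤ K) (hm : 1 ≤ m) (hN : K * Z0 ^ m ≤ N) :
    ∃ Z, Z0 ≤ Z ∧ K * Z ^ m ≤ N ∧ N < K * (Z + 1) ^ m := by
  classical
  have hex : ∃ z, N < K * z ^ m := by
    refine ⟨N + 1, ?_⟩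
    have h1 : N + 1 ≤ (N + 1) ^ m := Nat.le_self_pow (by omega) _
    have h2 : (N + 1) ^ m ≤ K * (N + 1) ^ m := Nat.le_mul_of_pos_left _ hK
    omega
  have h1 := Nat.find_spec hex
  have h2 : Z0 < Nat.find hex := by
    by_contra hc
    have := Nat.mul_le_mul_left K (Nat.pow_le_pow_left (not_lt.mp hc) m)
    omega
  obtain ⟨Z, hZ⟩ : ∃ Z, Nat.find hex = Z + 1 := ⟨Nat.find hex - 1, by omega⟩
  exact ⟨Z, by omega, not_lt.mp (Nat.find_min hex (by omega)), hZ ▸ h1⟩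

open Classical in
theorem count_nat [Finite A] {q r : ℕ} (hq : 2 ≤ q) {f g : ℕ → A}
    (hf : ∀ k a b, b < q ^ k → f (q ^ (k + r) * a + b) = g a + f b) (hg : QA q r g) (hN : ND g)
    (Q : ℕ[X]) (D : ℕ) (a : ℕ → ℕ) (hD : 0 < D) (ha : ∀ n, D * a n = Q.eval n)
    (hd : 2 ≤ Q.natDegree) (k : ℕ) (w : Fin k → A) :
    ∃ C N0 : ℕ, ∀ N, N0 ≤ N → N ^ 2 ≤
      C * ((range N).filter (fun n => ∀ i : Fin k, f (a (n + i)) = w i)).card ^
        (Q.natDegree + 1) := by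
  have hd1 : 1 ≤ Q.natDegree := by omega
  have hQ1 : 1 ≤ Q.eval 1 := by simpa using ev_lower Q hd1 1
  have hst : ∀ x y, x < y → tc Q 1 x < tc Q 1 y := fun x y h => ev_strict _ (deriv_deg Q hd) h
  obtain ⟨y0, hy0⟩ := reach hq hg hN (fun i : Fin k => tc Q 1 (1 + i))
    (fun i j hij => by
      apply Fin.ext
      rcases lt_trichotomy (i : ℕ) j with h | h | h
      · exact absurd hij (hst _ _ (by omega)).ne
      · exact h
      · exact absurd hij (hst _ _ (by omega)).ne')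
    (fun i => lt_of_le_of_lt (Nat.zero_le _) (hst 0 _ (by omega)))
  obtain ⟨T, E, hT, hwin⟩ := window hq hg _ hy0
  obtain ⟨W, hW0, hW⟩ := exists_pow_gt hq (fun i : Fin k => tc Q 1 (1 + i) * y0) (T + y0)
  obtain ⟨G, hG⟩ : ∃ G, G = q ^ (W + r) := ⟨_, rfl⟩
  have hGW : q ^ W ≤ G := hG ▸ Nat.pow_le_pow_right (by omega) (by omega)
  have hG0 : 0 < G := by rw [hG]; positivity
  obtain ⟨M, hM⟩ : ∃ M,
    M = 2 * (2 ^ Q.natDegree * (Q.eval 1 * 2 ^ Q.natDegree) * (D * T)) := ⟨_, rfl⟩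
  have hM1 : 1 ≤ M := by
    have : 0 < 2 ^ Q.natDegree * (Q.eval 1 * 2 ^ Q.natDegree) * (D * T) := by positivity
    omega
  obtain ⟨K2, hK2⟩ : ∃ K2, K2 = 2 * (M * (D * G)) := ⟨_, rfl⟩
  have hK20 : 0 < K2 := by rw [hK2]; positivity
  obtain ⟨K0, hK0⟩ : ∃ K0, K0 = q * Q.eval 1 := ⟨_, rfl⟩
  obtain ⟨K, hK⟩ : ∃ K, K = 3 + Q.eval 1 * q ^ (E + r) := ⟨_, rfl⟩
  obtain ⟨ξ0, hξ0⟩ : ∃ ξ0, ξ0 = K2 + 2 * (M * (G + 1 + k)) + 2 * (D * T) + 2 := ⟨_, rfl⟩
  refine ⟨K ^ 2 * (4 * K0 * K2) ^ (2 * (Q.natDegree + 1)) * (E + 1) ^ (Q.natDegree + 1),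
    K * (K0 * (ξ0 + 2) + D * T) ^ (Q.natDegree + 1), fun N hNN => ?_⟩
  obtain ⟨Z, hZ0, hZ1, hZ2⟩ := exists_root K _ _ N (by omega) (by omega) hNN
  have hDT : 1 ≤ D * T := Nat.mul_pos hD hT
  have hK0Z : K0 ≤ K0 * (ξ0 + 2) := Nat.le_mul_of_pos_right _ (by omega)
  obtain ⟨s, ξ, s1, s2, s3, s4, s5⟩ := scale hq Q hd1 (D * T) Z hDT (by omega) (by omega)
  rw [← hK0] at s4
  have hξ : ξ0 < ξ := by
    have : K0 * (ξ0 + 2) < K0 * (ξ + 2) := by omega
    have := Nat.lt_of_mul_lt_mul_left this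
    omega
  have h2ξ : 2 * ξ < q ^ s := by
    apply Nat.lt_of_mul_lt_mul_left (a := D * T)
    calc D * T * (2 * ξ) = 2 * (D * T) * ξ := by ring
      _ ≤ ξ * ξ := Nat.mul_le_mul_right _ (by omega)
      _ = ξ ^ 2 := by ring
      _ ≤ ξ ^ Q.natDegree := Nat.pow_le_pow_right (by omega) hd
      _ ≤ Q.eval ξ := ev_lower Q hd1 ξ
      _ < _ := s1
  obtain ⟨U, hU⟩ : ∃ U, U = ξ / K2 := ⟨_, rfl⟩
  have hU1 : K2 * U ≤ ξ := hU ▸ Nat.mul_div_le ξ K2
  have hU2 : ξ < K2 * (U + 1) := hU ▸ Nat.lt_mul_div_succ ξ hK20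
  have hU0 : 1 ≤ U := hU ▸ Nat.div_pos (by omega) hK20
  have hdiv1 : G * (ξ / G) ≤ ξ := Nat.mul_div_le ξ G
  have hdiv2 : ξ < G * (ξ / G + 1) := Nat.lt_mul_div_succ ξ hG0
  have hTT : T ≤ D * T := Nat.le_mul_of_pos_left _ hD
  let xx : ℕ → ℕ := fun u => 1 + G * (ξ / G + 1 + u)
  let yy : ℕ → ℕ := fun v => y0 + G * v
  have hGU : ∀ u < U, G * u + G ≤ G * U := fun u hu => by
    rw [← Nat.mul_succ]; exact Nat.mul_le_mul_left _ hu
  have hMGU : 2 * (M * (D * (G * U))) ≤ ξ := by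
    calc _ = K2 * U := by rw [hK2]; ring
      _ ≤ ξ := hU1
  have hyy : ∀ v < U, M * (D * yy v) ≤ ξ := by
    intro v hv
    have h1 : yy v ≤ G * U := by have := hGU v hv; simp only [yy]; omega
    have := Nat.mul_le_mul_left M (Nat.mul_le_mul_left D h1)
    omega
  have hxx : ∀ u < U, ∀ i ≤ k, ∃ h, xx u + i = ξ + h ∧ 1 ≤ h ∧ M * h ≤ ξ := by
    intro u hu i hi
    have e1 : xx u = 1 + G * (ξ / G + 1) + G * u := by simp only [xx]; ring
    have e2 : G * (ξ / G + 1) = G * (ξ / G) + G := by ring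
    refine ⟨xx u + i - ξ, by omega, by omega, ?_⟩
    have h1 : xx u + i - ξ ≤ (G + 1 + k) + D * (G * U) := by
      have := hGU u hu
      have : G * U ≤ D * (G * U) := Nat.le_mul_of_pos_left _ hD
      omega
    have h2 := Nat.mul_le_mul_left M h1
    rw [mul_add] at h2
    omega
  have hx2 : ∀ u < U, xx u ≤ 2 * ξ := by
    intro u hu
    obtain ⟨h, h1, -, h3⟩ := hxx u hu 0 (by omega)
    have : h ≤ M * h := Nat.le_mul_of_pos_left _ hM1
    omega
  have main : ∀ p : ℕ × ℕ, ∃ e ≤ E, p.1 < U → p.2 < U →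
      ∀ i : Fin k, f (a (xx p.1 + q ^ (s + e + r) * (D * yy p.2) + i)) = w i := by
    rintro ⟨u, v⟩
    obtain ⟨e, he, w1, w2⟩ := hwin (fun i => w i - (f (a (xx u + i)) +
      ∑ j ∈ range Q.natDegree, g (tc Q (j + 1) (xx u + i) * D ^ j * yy v ^ (j + 1))))
    refine ⟨e, he, fun hu hv i => ?_⟩
    simp only at hu hv ⊢
    obtain ⟨h, h1, h2, h3⟩ := hxx u hu i i.2.le
    obtain ⟨b1, b2, b3⟩ := blk Q D a hD ha hd1 T (q ^ s) ξ h (yy v) M hT hM s1 s2 h2 h3 (hyy v hv)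
    rw [← h1] at b1 b2 b3
    have hWi := hW i
    have hmod : tc Q 1 (xx u + i) * yy v ≡ tc Q 1 (1 + i) * y0 [MOD G] := by
      refine (ev_modEq _ ?_).mul ?_
      · simp only [xx]
        rw [add_right_comm]
        exact Nat.ModEq.add_right_cancel' 0 (by simp [Nat.ModEq])
      · simp [yy, Nat.ModEq]
    have hβ : tc Q 1 (xx u + i) * yy v =
        q ^ (W + r) * (tc Q 1 (xx u + i) * yy v / G) + tc Q 1 (1 + i) * y0 := by
      rw [← hG]
      conv_lhs => rw [← Nat.div_add_mod (tc Q 1 (xx u + i) * yy v) G]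
      rw [hmod, Nat.mod_eq_of_lt (by omega)]
    rw [add_right_comm, local_eval hq hf hg Q D a hD ha hd1 T s e W _ _ _ _ w1 b1 b2 b3
      (by omega) hβ (by omega)]
    have := congrFun w2 i
    simp only [car] at this
    rw [this]; abel
  choose ee hee hmain using main
  have hcard : U * U ≤
      ((range N).filter (fun n => ∀ i : Fin k, f (a (n + i)) = w i)).card * (E + 1) := by
    have h1 : (range U ×ˢ range U).card = U * U := by simp
    have h2 : (((range N).filter (fun n => ∀ i : Fin k, f (a (n + i)) = w i)) ×ˢ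
        range (E + 1)).card =
        ((range N).filter (fun n => ∀ i : Fin k, f (a (n + i)) = w i)).card * (E + 1) := by
      rw [card_product, card_range]
    rw [← h1, ← h2]
    refine card_le_card_of_injOn
      (fun p => (xx p.1 + q ^ (s + ee p + r) * (D * yy p.2), ee p)) (fun p hp => ?_) ?_
    · rw [mem_coe, mem_product, mem_range, mem_range] at hp
      rw [mem_coe, mem_product, mem_filter, mem_range, mem_range]
      refine ⟨⟨?_, hmain p hp.1 hp.2⟩, Nat.lt_succ_of_le (hee p)⟩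
      have h3 := hx2 _ hp.1
      have h4 : D * yy p.2 ≤ Z :=
        ((Nat.le_mul_of_pos_left _ hM1).trans (hyy _ hp.2)).trans s3.le
      have h5 : q ^ (s + ee p + r) ≤ Q.eval 1 * Z ^ Q.natDegree * q ^ (E + r) := by
        rw [add_assoc, pow_add]
        exact Nat.mul_le_mul s5 (Nat.pow_le_pow_right (by omega) (by have := hee p; omega))
      have h6 := Nat.mul_le_mul h5 h4
      have h7 : Z ≤ Z ^ (Q.natDegree + 1) := Nat.le_self_pow (by omega) Z
      have h8 : K * Z ^ (Q.natDegree + 1) = 3 * Z ^ (Q.natDegree + 1) +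
          Q.eval 1 * Z ^ Q.natDegree * q ^ (E + r) * Z := by rw [hK]; ring
      simp only
      omega
    · intro p hp p' hp' hpp
      rw [mem_coe, mem_product, mem_range, mem_range] at hp hp'
      obtain ⟨e1, e2⟩ := Prod.mk.inj hpp
      rw [← e2] at e1
      have hB : q ^ s ≤ q ^ (s + ee p + r) := Nat.pow_le_pow_right (by omega) (by omega)
      have h3 := hx2 _ hp.1
      have h4 := hx2 _ hp'.1
      have e3 := congrArg (· % q ^ (s + ee p + r)) e1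
      simp only [Nat.add_mul_mod_self_left] at e3
      rw [Nat.mod_eq_of_lt (by omega), Nat.mod_eq_of_lt (by omega)] at e3
      rw [e3, Nat.add_left_cancel_iff] at e1
      have e4 := Nat.eq_of_mul_eq_mul_left hD (Nat.eq_of_mul_eq_mul_left (by positivity) e1)
      simp only [xx, yy, Nat.add_left_cancel_iff] at e3 e4
      have e5 := Nat.eq_of_mul_eq_mul_left hG0 e3
      exact Prod.ext (by omega) (Nat.eq_of_mul_eq_mul_left hG0 e4)
  have hZU : Z + 1 ≤ 4 * K0 * K2 * U := by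
    have h1 : K2 * (U + 1) ≤ K2 * (2 * U) := Nat.mul_le_mul_left _ (by omega)
    calc Z + 1 ≤ K0 * (ξ + 2) := s4
      _ ≤ K0 * (2 * (K2 * (2 * U))) := Nat.mul_le_mul_left _ (by omega)
      _ = _ := by ring
  have hNU : N ≤ K * (4 * K0 * K2 * U) ^ (Q.natDegree + 1) :=
    hZ2.le.trans (Nat.mul_le_mul_left _ (Nat.pow_le_pow_left hZU _))
  calc N ^ 2 ≤ (K * (4 * K0 * K2 * U) ^ (Q.natDegree + 1)) ^ 2 := Nat.pow_le_pow_left hNU 2
    _ = K ^ 2 * (4 * K0 * K2) ^ (2 * (Q.natDegree + 1)) * (U * U) ^ (Q.natDegree + 1) := by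
      rw [mul_pow (4 * K0 * K2), mul_pow U]; ring
    _ ≤ K ^ 2 * (4 * K0 * K2) ^ (2 * (Q.natDegree + 1)) * (_ * (E + 1)) ^ (Q.natDegree + 1) :=
      Nat.mul_le_mul_left _ (Nat.pow_le_pow_left hcard _)
    _ = _ := by rw [mul_pow _ (E + 1)]; ring

theorem dig_split {q L : ℕ} (hq : 2 ≤ q) {f F : ℕ → A}
    (hf : ∀ n, f n = F (n % q ^ L) + f (n / q)) (hf0 : f 0 = 0) (k a : ℕ) : ∀ b, b < q ^ k →
    f (q ^ (k + L) * a + b) = f (q ^ L * a) + f b := by
  induction k with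
  | zero =>
    intro b hb
    obtain rfl : b = 0 := by simpa using hb
    simp [hf0]
  | succ k ih =>
    intro b hb
    have e1 : (q ^ (k + 1 + L) * a + b) % q ^ L = b % q ^ L := by
      rw [pow_add, mul_comm (q ^ (k + 1)), mul_assoc, Nat.mul_add_mod]
    have e2 : (q ^ (k + 1 + L) * a + b) / q = q ^ (k + L) * a + b / q := by
      rw [show q ^ (k + 1 + L) * a = q * (q ^ (k + L) * a) by ring,
        Nat.mul_add_div (by omega)]
    rw [hf (q ^ (k + 1 + L) * a + b), e1, e2, hf b,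
      ih _ ((Nat.div_lt_iff_lt_mul (by omega)).mpr (by rwa [← pow_succ]))]
    abel

theorem dig_diff {q L : ℕ} (hq : 2 ≤ q) {f F : ℕ → A}
    (hf : ∀ n, f n = F (n % q ^ L) + f (n / q)) (n n' : ℕ) (h : n ≡ n' [MOD q ^ L]) (j : ℕ) :
    f (q ^ j * n) - f n = f (q ^ j * n') - f n' := by
  induction j with
  | zero => simp
  | succ j ih =>
    have e : ∀ m, q ^ (j + 1) * m / q = q ^ j * m := fun m => by
      rw [pow_succ', mul_assoc, Nat.mul_div_cancel_left _ (by omega)]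
    have e1 : q ^ (j + 1) * n % q ^ L = q ^ (j + 1) * n' % q ^ L := h.mul_left _
    rw [hf (q ^ (j + 1) * n), hf (q ^ (j + 1) * n'), e, e, e1, add_sub_assoc, add_sub_assoc, ih]

theorem to_real (d C N0 x0 : ℕ) (c : ℕ → ℕ)
    (h : ∀ N, N0 ≤ N → N ^ 2 ≤ C * c (N + x0) ^ (d + 1)) :
    ∃ c0 : ℝ, 0 < c0 ∧ ∀ᶠ N : ℕ in atTop,
      c0 * (N : ℝ) ^ ((2 : ℝ) / ((d : ℝ) + 1)) ≤ (c N : ℝ) := by
  have hd : (0 : ℝ) < (d : ℝ) + 1 := by positivity
  have hC : (0 : ℝ) < (4 * C + 1 : ℝ) ^ (1 / ((d : ℝ) + 1)) := by positivity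
  refine ⟨((4 * C + 1 : ℝ) ^ (1 / ((d : ℝ) + 1)))⁻¹, inv_pos.mpr hC, ?_⟩
  filter_upwards [eventually_ge_atTop (N0 + x0), eventually_ge_atTop (2 * x0)] with N h1 h2
  have h3 := h (N - x0) (by omega)
  rw [Nat.sub_add_cancel (by omega)] at h3
  have h4 : N ^ 2 ≤ (4 * C + 1) * c N ^ (d + 1) := by
    calc N ^ 2 ≤ (2 * (N - x0)) ^ 2 := Nat.pow_le_pow_left (by omega) 2
      _ = 4 * (N - x0) ^ 2 := by ring
      _ ≤ 4 * (C * c N ^ (d + 1)) := Nat.mul_le_mul_left _ h3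
      _ ≤ _ := by rw [← mul_assoc]; exact Nat.mul_le_mul_right _ (by omega)
  have h5 : (N : ℝ) ^ 2 ≤ (4 * C + 1) * (c N : ℝ) ^ (d + 1) := by exact_mod_cast h4
  have h6 := Real.rpow_le_rpow (by positivity) h5 (show 0 ≤ 1 / ((d : ℝ) + 1) by positivity)
  rw [Real.mul_rpow (by positivity) (by positivity), ← Real.rpow_natCast, ← Real.rpow_natCast,
    ← Real.rpow_mul (by positivity), ← Real.rpow_mul (by positivity)] at h6
  push_cast at h6
  rw [mul_one_div_cancel hd.ne', Real.rpow_one, mul_one_div] at h6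
  rw [inv_mul_le_iff₀ hC]
  exact h6

open Classical in
theorem count_digital (q L : ℕ) (hq : 2 ≤ q) (A : Type u) [AddCommGroup A] [Finite A]
    (f F : ℕ → A) (hf0 : f 0 = 0) (hf : ∀ n, f n = F (n % q ^ L) + f (n / q))
    (P : ℚ[X]) (hdeg : 2 ≤ P.natDegree) (a : ℕ → ℕ) (ha : ∀ n : ℕ, (a n : ℚ) = P.eval (n : ℚ))
    (hN : ∀ B : AddSubgroup A, B ≠ ⊤ → ¬ ∃ T, 0 < T ∧ ∀ n, f (n + T) - f n ∈ B)
    (k : ℕ) (w : Fin k → A) :
    ∃ c : ℝ, 0 < c ∧ ∀ᶠ N : ℕ in atTop,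
      c * (N : ℝ) ^ ((2 : ℝ) / ((P.natDegree : ℝ) + 1)) ≤
        (((range N).filter (fun n => ∀ i : Fin k, f (a (n + i)) = w i)).card : ℝ) := by
  obtain ⟨x, D, Q, hD, hQ, hx⟩ := to_nat P (by omega) a ha
  have hs := dig_split hq hf hf0
  have hg : QA q L (fun n => f (q ^ L * n)) := by
    intro k a b hb
    have := hs (k + L) a (q ^ L * b) (by
      rw [pow_add, mul_comm]; exact Nat.mul_lt_mul_of_pos_right hb (by positivity))
    simp only
    rw [← this]; congr 1; ring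
  have hND : ND (fun n => f (q ^ L * n)) := by
    rintro B hB ⟨p, hp, h⟩
    refine hN B hB ⟨p * q ^ L, by positivity, fun n => ?_⟩
    have h1 := per_mul (g := fun n => (QuotientAddGroup.mk (f (q ^ L * n)) : A ⧸ B)) (p := p)
      (fun n => QuotientAddGroup.eq_iff_sub_mem.mpr (h n)) (q ^ L) n
    have h2 := QuotientAddGroup.eq_iff_sub_mem.mp h1
    have h3 := dig_diff hq hf (n + p * q ^ L) n (by simp [Nat.ModEq]) L
    have h4 : f (n + p * q ^ L) - f n = f (q ^ L * (n + p * q ^ L)) - f (q ^ L * n) := by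
      rw [sub_eq_iff_eq_add.mp h3]; abel
    rwa [h4]
  obtain ⟨C, N0, h⟩ := count_nat hq hs hg hND Q D (fun n => a (n + x)) hD hx (by omega) k w
  rw [hQ] at h
  refine to_real P.natDegree C N0 x _ fun N hNN => (h N hNN).trans ?_
  refine Nat.mul_le_mul_left _ (Nat.pow_le_pow_left ?_ _)
  refine card_le_card_of_injOn (fun n => n + x) (fun n hn => ?_) (fun n _ m _ e => by simpa using e)
  rw [mem_coe, mem_filter, mem_range] at hn ⊢
  refine ⟨by simpa using hn.1, fun i => ?_⟩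
  rw [← hn.2 i]
  simp only
  rw [add_right_comm]

end Pool.Agent.MP_b1aeef_nt.H50
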